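import Pool.Agent.Lib.MP_04668c_co.E.Base

/-!
# Modules JLIN and COEF (helper34)
-/

set_option autoImplicit false
set_option linter.unusedSectionVars false

namespace Pool.Agent.Lib.MP_04668c_co.E.H34

open Finset Classical Module
open Pool.Agent.Lib.MP_04668c_co Pool.Agent.Lib.MP_04668c_co.E

section lin

variable {V X : Type} [Fintype V] [Fintype X]

lemma ip_add_left (p p' F : V → ℝ × ℝ) : ip (p + p') F = ip p F + ip p' F := by
  simp only [ip_apply, ← sum_add_distrib]
  refine sum_congr rfl fun v _ => ?_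
  simp only [Pi.add_apply, Prod.fst_add, Prod.snd_add]
  ring

lemma ip_smul_left (t : ℝ) (p F : V → ℝ × ℝ) : ip (t • p) F = t * ip p F := by
  simp only [ip_apply, mul_sum]
  refine sum_congr rfl fun v _ => ?_
  simp only [Pi.smul_apply, Prod.smul_fst, Prod.smul_snd, smul_eq_mul]
  ring

lemma ip_zero_left (F : V → ℝ × ℝ) : ip (0 : V → ℝ × ℝ) F = 0 := by
  have := ip_smul_left 0 (0 : V → ℝ × ℝ) F
  rwa [zero_smul, zero_mul] at this

lemma perp_add (a b : ℝ × ℝ) : perp (a + b) = perp a + perp b := by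
  refine Prod.ext ?_ ?_ <;> simp [perp]
  ring

lemma perp_smul (t : ℝ) (a : ℝ × ℝ) : perp (t • a) = t • perp a := by
  refine Prod.ext ?_ ?_ <;> simp [perp]

lemma dip_add' (u v : V) (a b : ℝ × ℝ) : dip u v (a + b) = dip u v a + dip u v b :=
  (dipL u v).map_add a b

lemma dip_smul' (u v : V) (t : ℝ) (a : ℝ × ℝ) : dip u v (t • a) = t • dip u v a :=
  (dipL u v).map_smul t a

lemma tv_add (δ δ' : X → V → ℝ × ℝ) (i : Tst X V) : tv (δ + δ') i = tv δ i + tv δ' i := by
  have e : ∀ x u v, (δ + δ') x u - (δ + δ') x v = (δ x u - δ x v) + (δ' x u - δ' x v) := by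
    intro x u v
    simp only [Pi.add_apply]
    abel
  simp only [tv, e]
  split_ifs
  · rw [dip_add']
  · rw [perp_add, dip_add']

lemma tv_smul (t : ℝ) (δ : X → V → ℝ × ℝ) (i : Tst X V) : tv (t • δ) i = t • tv δ i := by
  have e : ∀ x u v, (t • δ) x u - (t • δ) x v = t • (δ x u - δ x v) := by
    intro x u v
    simp only [Pi.smul_apply, smul_sub]
  simp only [tv, e]
  split_ifs
  · rw [dip_smul']
  · rw [perp_smul, dip_smul']

/-- `Jv` as a linear map -/
noncomputable def JvL (p : V → ℝ × ℝ) (s : X → ℝ) (Φ : X → V → ℝ × ℝ) (i : Tst X V) :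
    (X → V → ℝ × ℝ) →ₗ[ℝ] ℝ where
  toFun δ := Jv p s Φ i δ
  map_add' δ δ' := by
    simp only [Jv, tv_add, map_add, Pi.add_apply, ip_add_left, mul_add, sum_add_distrib]
    ring
  map_smul' t δ := by
    simp only [Jv, tv_smul, map_smul, Pi.smul_apply, ip_smul_left, smul_eq_mul, RingHom.id_apply,
      mul_add, mul_sum]
    congr 1
    refine sum_congr rfl fun x _ => ?_
    ring

lemma JvL_apply (p : V → ℝ × ℝ) (s : X → ℝ) (Φ : X → V → ℝ × ℝ) (i : Tst X V)
    (δ : X → V → ℝ × ℝ) : JvL p s Φ i δ = Jv p s Φ i δ := rfl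

lemma dl_eq (idx : X → V → ℕ) {b : ℕ} (ρ : Fin b × Fin 2 → Fin 5 → ℝ)
    (μ : Fin b × Fin 2 → Fin 5 → X → Bool) :
    dl idx ρ μ = ∑ r : (Fin b × Fin 2) × Fin 5, ρ r.1 r.2 •
      ∑ y, (if μ r.1 r.2 y = true then un idx r.1 y else 0) := by
  funext x v
  simp only [Finset.sum_apply, Pi.smul_apply]
  rw [Fintype.sum_prod_type]
  simp only [dl]
  refine sum_congr rfl fun α _ => sum_congr rfl fun k _ => ?_
  have e : ∑ y, (if μ α k y = true then un idx α y else 0) x v =
      if idx x v = α.1.val ∧ μ α k x = true then e2 α.2 else 0 := by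
    rw [sum_eq_single x]
    · by_cases h1 : μ α k x = true
      · simp only [h1, if_true, un, true_and, and_true]
      · simp only [h1, and_false, if_false, Pi.zero_apply]
        simp
    · intro y _ hy
      by_cases h1 : μ α k y = true
      · simp only [h1, if_true, un]
        rw [if_neg (fun h => hy h.1.symm)]
      · simp [h1]
    · intro h
      exact absurd (mem_univ _) h
  rw [e]
  split_ifs
  · rfl
  · rw [smul_zero]

end lin

/-- JLIN -/
theorem jlin : JlinStatement := by
  intro V X _ _ b idx p s Φ i ρ μ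
  rw [← JvL_apply, dl_eq, map_sum]
  refine sum_congr rfl fun r _ => ?_
  rw [map_smul, map_sum, smul_eq_mul]
  congr 1
  refine sum_congr rfl fun y _ => ?_
  split_ifs
  · rfl
  · exact map_zero _

/-- COEF -/
theorem coef : CoefStatement := by
  intro V X _ _ B b idx q p s a K Φ i hN hb hp hΦ hK
  obtain ⟨-, hΦ2, -⟩ := (mem_famK B univ Φ).1 hΦ
  let W : Fin b × Fin 2 → Finset X := fun α =>
    univ.filter (fun x => Jv p s Φ i (un idx α x) ≠ 0)
  have key : ∀ x ∈ ncs B p, x ∈ K → x ≠ i.2.1 → ∃ α, x ∈ W α := by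
    intro x hx hxK hxi
    obtain ⟨hinj, hlt⟩ := hN x
    -- `s x ≠ 0`
    have hs : s x ≠ 0 := by
      intro h0
      rw [ncs, mem_filter] at hx
      obtain ⟨-, u, hu, v, hv, hne⟩ := hx
      apply hne
      rw [hp x u hu, hp x v hv, h0, zero_smul, zero_smul]
    obtain ⟨v, hv⟩ : ∃ v, Φ x v ≠ 0 := by
      by_contra hcon
      push Not at hcon
      exact hK x hxK (funext hcon)
    have hvB : v ∈ B x := by
      by_contra hcon
      exact hv (hΦ2 x v hcon)
    have hJ : ∀ c : Fin 2, Jv p s Φ i (un idx (⟨idx x v, hlt v hvB⟩, c) x) =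
        s x * ((Φ x v).1 * (e2 c).1 + (Φ x v).2 * (e2 c).2) := by
      intro c
      have h1 : tv (un idx ((⟨idx x v, hlt v hvB⟩ : Fin b), c) x : X → V → ℝ × ℝ) i = 0 := by
        have h2 : ∀ u : V, un idx ((⟨idx x v, hlt v hvB⟩ : Fin b), c) x i.2.1 u = 0 := by
          intro u
          rw [un, if_neg (fun h => hxi h.1.symm)]
        simp only [tv, h2, sub_zero]
        have h3 : perp 0 = 0 := by simp [perp]
        rw [h3]
        have h4 : ∀ u w : V, dip u w 0 = 0 := fun u w => (dipL u w).map_zero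
        split_ifs
        · exact h4 _ _
        · exact h4 _ _
      rw [Jv, h1, map_zero, zero_add, sum_eq_single x]
      · congr 1
        rw [ip_apply, sum_eq_single v]
        · simp [un]
        · intro u _ hu
          by_cases huB : u ∈ B x
          · have : idx x u ≠ idx x v := fun h => hu (hinj u huB v hvB h)
            simp [un, this]
          · simp [hΦ2 x u huB]
        · intro h
          exact absurd (mem_univ _) h
      · intro y _ hy
        have : (un idx ((⟨idx x v, hlt v hvB⟩ : Fin b), c) x y : V → ℝ × ℝ) = 0 := by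
          funext u
          rw [un, if_neg (fun h => hy h.1)]
          rfl
        rw [this, ip_zero_left, mul_zero]
      · intro h
        exact absurd (mem_univ _) h
    have hne : (Φ x v).1 ≠ 0 ∨ (Φ x v).2 ≠ 0 := by
      by_contra hcon
      push Not at hcon
      exact hv (Prod.ext hcon.1 hcon.2)
    rcases hne with h | h
    · refine ⟨(⟨idx x v, hlt v hvB⟩, 0), ?_⟩
      rw [mem_filter]
      refine ⟨mem_univ _, ?_⟩
      rw [hJ]
      simp [e2, hs, h]
    · refine ⟨(⟨idx x v, hlt v hvB⟩, 1), ?_⟩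
      rw [mem_filter]
      refine ⟨mem_univ _, ?_⟩
      rw [hJ]
      simp [e2, hs, h]
  have hne : (univ : Finset (Fin b × Fin 2)).Nonempty := ⟨(⟨0, hb⟩, 0), mem_univ _⟩
  obtain ⟨α, -, hα⟩ := exists_max_image univ (fun α => (W α).card) hne
  refine ⟨α, ?_⟩
  have h1 : ncs B p ⊆ (univ.biUnion W) ∪ Kᶜ ∪ {i.2.1} := by
    intro x hx
    rw [mem_union, mem_union, mem_singleton, mem_biUnion, mem_compl]
    by_cases h1 : x ∈ K
    · by_cases h2 : x = i.2.1
      · exact Or.inr h2
      · obtain ⟨β, hβ⟩ := key x hx h1 h2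
        exact Or.inl (Or.inl ⟨β, mem_univ _, hβ⟩)
    · exact Or.inl (Or.inr h1)
  have h2 : (univ.biUnion W).card ≤ 2 * b * (W α).card := by
    calc (univ.biUnion W).card ≤ ∑ β, (W β).card := card_biUnion_le
      _ ≤ ∑ _β : Fin b × Fin 2, (W α).card := sum_le_sum fun β _ => hα β (mem_univ β)
      _ = 2 * b * (W α).card := by
        rw [sum_const, card_univ, Fintype.card_prod, Fintype.card_fin, Fintype.card_fin,
          smul_eq_mul, mul_comm b 2]
  calc (ncs B p).card ≤ ((univ.biUnion W) ∪ Kᶜ ∪ {i.2.1}).card := card_le_card h1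
    _ ≤ (univ.biUnion W).card + Kᶜ.card + 1 := by
      refine (card_union_le _ _).trans ?_
      rw [card_singleton]
      exact Nat.add_le_add_right (card_union_le _ _) 1
    _ ≤ 2 * b * (W α).card + Kᶜ.card + 1 := by omega

end Pool.Agent.Lib.MP_04668c_co.E.H34
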