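import Pool.Agent.Lib.MP_04668c_co.E.Base

/-!
# Module TUNE (helper34)
-/

set_option autoImplicit false
set_option linter.unusedSectionVars false

namespace Pool.Agent.Lib.MP_04668c_co.E.H34

open Finset Classical Module
open Pool.Agent.Lib.MP_04668c_co Pool.Agent.Lib.MP_04668c_co.E

/-- TUNE -/
theorem tune (hU : UnionStatement) (hR : RhoStatement) (hS : StabStatement)
    (hJ : JlinStatement) (hC : CoefStatement) : TuneStatement := by
  intro V X _ _ B b κ m idx q p hN hb hInd hq hT hp hm hcard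
  -- the placement
  have hp' : ∀ x, ∃ (s : ℝ) (a : ℝ × ℝ), ∀ v ∈ B x, p v = s • q x v + a := fun x =>
    ((mem_kerR B q univ univ p).1 hp).2 x (mem_univ x)
  choose s a hsa using hp'
  -- the tests
  let I : Type := {i : Tst X V // IsTst B i ∧ tv q i ∈ sp B q}
  choose K Φ hΦ1 hΦ2 hΦ3 hΦ4 using fun i : I => hT i.1 i.2.1 i.2.2
  have hfam : ∀ i : I, Φ i ∈ famK B univ := fun i => (Submodule.mem_inf.1 (hΦ1 i)).1
  have hcoef : ∀ i : I, ∃ α : Fin b × Fin 2,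
      m ≤ (univ.filter (fun x => Jv p s (Φ i) i.1 (un idx α x) ≠ 0)).card := by
    intro i
    obtain ⟨α, hα⟩ := hC V X B b idx q p s a (K i) (Φ i) i.1 hN hb hsa (hfam i) (hΦ3 i)
    refine ⟨α, ?_⟩
    have h1 := hΦ4 i
    have h2 : 2 * b * m ≤
        2 * b * (univ.filter (fun x => Jv p s (Φ i) i.1 (un idx α x) ≠ 0)).card := by omega
    exact Nat.le_of_mul_le_mul_left h2 (by omega)
  have hI : (Fintype.card I) ^ 2 < (m + 1) ^ 5 := by
    refine lt_of_le_of_lt (Nat.pow_le_pow_left ?_ 2) hcard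
    rw [Fintype.card_subtype]
    exact card_le_card fun i hi => by
      rw [mem_filter] at hi ⊢
      exact ⟨hi.1, hi.2.1⟩
  obtain ⟨μ, hμ⟩ := hU X (Fin b × Fin 2) I
    (fun i α x => Jv p s (Φ i) i.1 (un idx α x)) m hcoef hI
  obtain ⟨ρ', hρ'⟩ := hR I ((Fin b × Fin 2) × Fin 5)
    (fun i r => ∑ x, (if μ r.1 r.2 x = true then Jv p s (Φ i) i.1 (un idx r.1 x) else 0))
    (fun i => by
      obtain ⟨α, k, h⟩ := hμ i
      exact ⟨(α, k), h⟩)
  let ρ : Fin b × Fin 2 → Fin 5 → ℝ := fun α k => ρ' (α, k)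
  have hne : ∀ i : I, Jv p s (Φ i) i.1 (dl idx ρ μ) ≠ 0 := by
    intro i
    rw [hJ V X b idx p s (Φ i) i.1 ρ μ]
    exact hρ' i
  -- stability
  have hst : ∀ i : Tst X V, ∃ ε : ℝ, 0 < ε ∧ (IsTst B i → ∀ t : ℝ, t ≠ 0 → |t| < ε →
      tv (q + t • dl idx ρ μ) i ∉ sp B (q + t • dl idx ρ μ)) := by
    intro i
    by_cases hi : IsTst B i
    · have h2 : tv q i ∉ sp B q ∨ ∃ Ψ ∈ NN B q, sumMap Ψ = tv q i ∧
          Jv p s Ψ i (dl idx ρ μ) ≠ 0 := by
        by_cases h : tv q i ∈ sp B q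
        · exact Or.inr ⟨Φ ⟨i, hi, h⟩, hΦ1 ⟨i, hi, h⟩, hΦ2 ⟨i, hi, h⟩, hne ⟨i, hi, h⟩⟩
        · exact Or.inl h
      obtain ⟨ε, hε, h3⟩ := hS V X B q (dl idx ρ μ) p s a i hInd hq hsa h2
      exact ⟨ε, hε, fun _ => h3⟩
    · exact ⟨1, one_pos, fun h => absurd h hi⟩
  choose ε hε0 hε using hst
  obtain ⟨t, ht0, ht⟩ : ∃ t : ℝ, 0 < t ∧ ∀ i, t < ε i := by
    rcases isEmpty_or_nonempty (Tst X V) with h | h
    · exact ⟨1, one_pos, fun i => (h.false i).elim⟩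
    · obtain ⟨i, -, hi⟩ := exists_min_image (univ : Finset (Tst X V)) ε
        ⟨Classical.arbitrary _, mem_univ _⟩
      exact ⟨ε i / 2, half_pos (hε0 i), fun j =>
        lt_of_lt_of_le (half_lt_self (hε0 i)) (hi j (mem_univ j))⟩
  refine ⟨ρ, μ, t, fun i hi => ?_⟩
  exact hε i hi t ht0.ne' (by rw [abs_of_pos ht0]; exact ht i)

end Pool.Agent.Lib.MP_04668c_co.E.H34
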