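import Pool.Agent.Lib.MP_04668c_co.E.Base

/-!
# Modules UNION and RHO (helper34)
-/

set_option autoImplicit false
set_option linter.unusedSectionVars false

namespace Pool.Agent.Lib.MP_04668c_co.E.H34

open Finset Classical Module
open Pool.Agent.Lib.MP_04668c_co Pool.Agent.Lib.MP_04668c_co.E

/-- RHO -/
theorem rho : RhoStatement := by
  intro I R _ _ J hJ
  obtain ⟨w, _, hw⟩ := exists_common (⊤ : Submodule ℝ (R → ℝ)) (univ : Finset I)
    (fun i ρ => ∑ r, ρ r * J i r) (fun i _ w w' =>
      ⟨Polynomial.C (∑ r, w r * J i r) + Polynomial.X * Polynomial.C (∑ r, (w' - w) r * J i r),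
        fun t => by
          simp only [Polynomial.eval_add, Polynomial.eval_mul, Polynomial.eval_C,
            Polynomial.eval_X, Pi.add_apply, Pi.smul_apply, smul_eq_mul, add_mul,
            sum_add_distrib, mul_sum, mul_assoc]⟩)
    (fun i _ => by
      obtain ⟨r, hr⟩ := hJ i
      refine ⟨Pi.single r 1, trivial, ?_⟩
      show ∑ r', (Pi.single r (1 : ℝ) : R → ℝ) r' * J i r' ≠ 0
      rw [sum_eq_single r]
      · simpa using hr
      · intro b _ hb
        rw [Pi.single_eq_of_ne hb, zero_mul]
      · intro h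
        exact absurd (mem_univ _) h)
  exact ⟨w, fun i => hw i (mem_univ i)⟩

/-- UNION -/
theorem union (hLO : LoStatement) : UnionStatement := by
  intro X A I _ _ _ a m hm hI
  choose α hα using hm
  let Z : I → Finset (X → Bool) := fun i =>
    univ.filter (fun μ => ∑ x, (if μ x = true then a i (α i) x else 0) = 0)
  have hZ : ∀ i, (Z i).card ^ 2 * (m + 1) ≤ 4 ^ Fintype.card X := fun i =>
    (Nat.mul_le_mul_left _ (Nat.succ_le_succ (hα i))).trans (hLO X (a i (α i)) 0)
  by_contra hcon
  push Not at hcon
  let T : ℕ := Fintype.card (Fin 5 → X → Bool)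
  have hT : T = 2 ^ (5 * Fintype.card X) := by
    show Fintype.card (Fin 5 → X → Bool) = _
    rw [Fintype.card_fun, Fintype.card_fun, Fintype.card_bool, Fintype.card_fin, ← pow_mul,
      mul_comm]
  have hT0 : 0 < T := by rw [hT]; positivity
  let Bd : I → Finset (A → Fin 5 → X → Bool) := fun i =>
    Fintype.piFinset (fun β => if β = α i then Fintype.piFinset (fun _ => Z i) else univ)
  have hcard : ∀ i, (Bd i).card * T = (Z i).card ^ 5 * T ^ Fintype.card A := by
    intro i
    have h1 : (Bd i).card = ∏ β : A, (if β = α i then (Z i).card ^ 5 else T) := by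
      show (Fintype.piFinset _).card = _
      rw [Fintype.card_piFinset]
      refine prod_congr rfl fun β _ => ?_
      split_ifs with h
      · rw [Fintype.card_piFinset, prod_const, card_univ, Fintype.card_fin]
      · rw [card_univ]
    rw [h1, ← mul_prod_erase univ _ (mem_univ (α i)), if_pos rfl]
    have h2 : ∏ β ∈ univ.erase (α i), (if β = α i then (Z i).card ^ 5 else T) =
        T ^ (Fintype.card A - 1) := by
      rw [← card_univ, ← card_erase_of_mem (mem_univ (α i)), ← prod_const]
      refine prod_congr rfl fun β hβ => ?_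
      rw [if_neg (ne_of_mem_erase hβ)]
    have h3 : 0 < Fintype.card A := Fintype.card_pos_iff.2 ⟨α i⟩
    rw [h2, mul_assoc, ← pow_succ, Nat.sub_add_cancel h3]
  have hcov : (univ : Finset (A → Fin 5 → X → Bool)) ⊆ univ.biUnion Bd := by
    intro μ _
    obtain ⟨i, hi⟩ := hcon μ
    rw [mem_biUnion]
    refine ⟨i, mem_univ i, ?_⟩
    rw [Fintype.mem_piFinset]
    intro β
    split_ifs with h
    · subst h
      rw [Fintype.mem_piFinset]
      intro k
      rw [mem_filter]
      exact ⟨mem_univ _, hi _ k⟩
    · exact mem_univ _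
  have h1 : T ^ Fintype.card A ≤ ∑ i, (Bd i).card := by
    have h2 := (card_le_card hcov).trans card_biUnion_le
    rwa [card_univ, Fintype.card_fun] at h2
  have h2 : T ≤ ∑ i, (Z i).card ^ 5 := by
    have h3 : T ^ Fintype.card A * T ≤ T ^ Fintype.card A * ∑ i, (Z i).card ^ 5 := by
      calc T ^ Fintype.card A * T ≤ (∑ i, (Bd i).card) * T := Nat.mul_le_mul_right _ h1
        _ = ∑ i, (Z i).card ^ 5 * T ^ Fintype.card A := by
          rw [sum_mul]
          exact sum_congr rfl fun i _ => hcard i
        _ = _ := by rw [← sum_mul, mul_comm]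
    exact Nat.le_of_mul_le_mul_left h3 (by positivity)
  have h3 : T ^ 2 * (m + 1) ^ 5 ≤ T ^ 2 * Fintype.card I ^ 2 := by
    calc T ^ 2 * (m + 1) ^ 5 ≤ (∑ i, (Z i).card ^ 5) ^ 2 * (m + 1) ^ 5 :=
          Nat.mul_le_mul_right _ (Nat.pow_le_pow_left h2 2)
      _ ≤ (Fintype.card I * ∑ i, ((Z i).card ^ 5) ^ 2) * (m + 1) ^ 5 := by
          refine Nat.mul_le_mul_right _ ?_
          have := sq_sum_le_card_mul_sum_sq (s := (univ : Finset I))
            (f := fun i => (Z i).card ^ 5)
          rwa [card_univ] at this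
      _ = Fintype.card I * ∑ i, ((Z i).card ^ 2 * (m + 1)) ^ 5 := by
          rw [mul_assoc, sum_mul]
          congr 1
          refine sum_congr rfl fun i _ => ?_
          ring
      _ ≤ Fintype.card I * ∑ _i : I, T ^ 2 := by
          refine Nat.mul_le_mul_left _ (sum_le_sum fun i _ => ?_)
          refine (Nat.pow_le_pow_left (hZ i) 5).trans (le_of_eq ?_)
          rw [hT, ← pow_mul, ← pow_mul, show (4 : ℕ) = 2 ^ 2 from rfl, ← pow_mul]
          congr 1
          ring
      _ = T ^ 2 * Fintype.card I ^ 2 := by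
          rw [sum_const, card_univ, smul_eq_mul]
          ring
  have h4 := Nat.le_of_mul_le_mul_left h3 (by positivity)
  exact absurd hI (not_lt.2 h4)

end Pool.Agent.Lib.MP_04668c_co.E.H34
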